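import Pool.Agent.E8helper19.PM.Stm

/-!
# Project PM, piece PM10: an a priori inequality

The Pohozaev-Rellich identity: for `f` with compact support in the ball of radius `R`,
`∫ |f|² + |∇f|² ≤ C ∫ |Δf + k² f|²`.
-/

set_option autoImplicit false
open MeasureTheory Filter Topology Set
open scoped ContDiff ENNReal Real InnerProductSpace

namespace Pool.Agent.E8helper91.PM

open Pool.Agent.E8helper19.PM

noncomputable section

/-- the partial derivative of a real function -/
def dd (j : Fin 3) (w : E → ℝ) (y : E) : ℝ := fderiv ℝ w y (EuclideanSpace.single j 1)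

/-- `d` is the derivative of `w` in the direction `e_j` -/
def HD (j : Fin 3) (w : E → ℝ) (y : E) (d : ℝ) : Prop :=
  HasDerivAt (fun t : ℝ => w (y + t • EuclideanSpace.single j (1 : ℝ))) d 0

theorem HD.of {j : Fin 3} {w : E → ℝ} {y : E} (h : Differentiable ℝ w) : HD j w y (dd j w y) := by
  have h1 : HasFDerivAt w (fderiv ℝ w y) (y + (0 : ℝ) • EuclideanSpace.single j (1 : ℝ)) := by
    rw [zero_smul, add_zero]
    exact (h y).hasFDerivAt
  have h2 : HasDerivAt (fun t : ℝ => y + t • EuclideanSpace.single j (1 : ℝ))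
      (EuclideanSpace.single j (1 : ℝ)) 0 := by
    have := ((hasDerivAt_id (0 : ℝ)).smul_const (EuclideanSpace.single j (1 : ℝ))).const_add y
    simpa using this
  exact h1.comp_hasDerivAt (0 : ℝ) h2

theorem HD.eq {j : Fin 3} {w : E → ℝ} {y : E} {d : ℝ} (h : HD j w y d) (hw : Differentiable ℝ w) :
    dd j w y = d := (HD.of hw).unique h

theorem HD.mul {j : Fin 3} {w w' : E → ℝ} {y : E} {d d' : ℝ} (h : HD j w y d) (h' : HD j w' y d') :
    HD j (fun y => w y * w' y) y (d * w' y + w y * d') := by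
  have := HasDerivAt.fun_mul h h'
  simpa [HD] using this

theorem HD.add {j : Fin 3} {w w' : E → ℝ} {y : E} {d d' : ℝ} (h : HD j w y d) (h' : HD j w' y d') :
    HD j (fun y => w y + w' y) y (d + d') := HasDerivAt.fun_add h h'

theorem HD.sub {j : Fin 3} {w w' : E → ℝ} {y : E} {d d' : ℝ} (h : HD j w y d) (h' : HD j w' y d') :
    HD j (fun y => w y - w' y) y (d - d') := HasDerivAt.fun_sub h h'

theorem HD.cmul {j : Fin 3} {w : E → ℝ} {y : E} {d : ℝ} (c : ℝ) (h : HD j w y d) :
    HD j (fun y => c * w y) y (c * d) := HasDerivAt.const_mul c h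

theorem HD.coord (j i : Fin 3) (y : E) : HD j (fun y => y i) y (if i = j then 1 else 0) := by
  have h : HasDerivAt (fun t : ℝ => y i + t * (if i = j then 1 else 0)) (if i = j then 1 else 0) 0 := by
    have := ((hasDerivAt_id (0 : ℝ)).mul_const (if i = j then (1 : ℝ) else 0)).const_add (y i)
    simpa using this
  refine h.congr_of_eventuallyEq (Eventually.of_forall fun t => ?_)
  simp

/-- smooth functions of compact support -/
structure SC (w : E → ℝ) : Prop where
  smooth : ContDiff ℝ ∞ w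
  cpt : HasCompactSupport w

theorem SC.dd {w : E → ℝ} (h : SC w) (j : Fin 3) : SC (dd j w) := by
  refine ⟨?_, ?_⟩
  · exact (h.smooth.fderiv_right (m := ∞) (by simp)).clm_apply contDiff_const
  · exact h.cpt.fderiv_apply (𝕜 := ℝ) _

theorem SC.diff {w : E → ℝ} (h : SC w) : Differentiable ℝ w := h.smooth.differentiable (by simp)

theorem SC.cont {w : E → ℝ} (h : SC w) : Continuous w := h.smooth.continuous

theorem dd_zero {w : E → ℝ} {y : E} (hy : y ∉ tsupport w) (j : Fin 3) : dd j w y = 0 := by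
  have : fderiv ℝ w y = 0 := by
    by_contra h
    exact hy (support_fderiv_subset ℝ (f := w) h)
  simp [dd, this]

theorem tsupport_dd {w : E → ℝ} (j : Fin 3) : tsupport (dd j w) ⊆ tsupport w := by
  apply closure_minimal _ (isClosed_tsupport w)
  intro y hy
  by_contra h
  exact hy (dd_zero h j)

theorem dd_symm {w : E → ℝ} (h : SC w) (i j : Fin 3) (y : E) : dd i (dd j w) y = dd j (dd i w) y := by
  have h1 : ∀ a b : Fin 3, dd a (dd b w) y =
      fderiv ℝ (fderiv ℝ w) y (EuclideanSpace.single a 1) (EuclideanSpace.single b 1) := by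
    intro a b
    have hd : DifferentiableAt ℝ (fderiv ℝ w) y :=
      ((h.smooth.fderiv_right (m := ∞) (by simp)).differentiable (by simp)) y
    have h2 : HasFDerivAt (fun z => fderiv ℝ w z (EuclideanSpace.single b 1))
        ((ContinuousLinearMap.apply ℝ ℝ (EuclideanSpace.single b (1 : ℝ))).comp
          (fderiv ℝ (fderiv ℝ w) y)) y :=
      (ContinuousLinearMap.apply ℝ ℝ (EuclideanSpace.single b (1 : ℝ))).hasFDerivAt.comp y
        hd.hasFDerivAt
    show fderiv ℝ (fun z => fderiv ℝ w z (EuclideanSpace.single b 1)) y _ = _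
    rw [h2.fderiv]
    rfl
  rw [h1, h1]
  have : IsSymmSndFDerivAt ℝ w y := by
    apply ContDiffAt.isSymmSndFDerivAt (n := ∞) h.smooth.contDiffAt
    simp only [minSmoothness_of_isRCLikeNormedField]
    exact WithTop.coe_le_coe.2 le_top
  exact this.eq _ _

theorem int_dd {w : E → ℝ} (h : ContDiff ℝ 1 w) (hc : HasCompactSupport w) (j : Fin 3) :
    ∫ y, dd j w y = 0 := by
  have hd : Continuous (fun y => fderiv ℝ w y (EuclideanSpace.single j 1)) :=
    (h.continuous_fderiv (by simp)).clm_apply continuous_const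
  have h2 := integral_mul_fderiv_eq_neg_fderiv_mul_of_integrable (μ := (volume : Measure E))
    (f := fun _ => (1 : ℝ)) (g := w) (𝕜 := ℝ) (v := EuclideanSpace.single j (1 : ℝ))
    (by simp) (by
      simpa using hd.integrable_of_hasCompactSupport (hc.fderiv_apply (𝕜 := ℝ) _))
    (by simpa using h.continuous.integrable_of_hasCompactSupport hc) (fun x _ => by fun_prop)
    (fun x _ => h.differentiable (by simp) x)
  simpa [dd] using h2

/-- integrability of expressions in the derivatives of `u` -/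
theorem integ {u g : E → ℝ} (hu : SC u) (hg : Continuous g) (h0 : ∀ y, y ∉ tsupport u → g y = 0) :
    Integrable g := by
  apply hg.integrable_of_hasCompactSupport
  exact HasCompactSupport.intro hu.cpt h0

theorem real_apr (k R : ℝ) (hk : 0 < k) (hR : 0 < R) (u : E → ℝ) (hu : SC u)
    (hs : tsupport u ⊆ Metric.ball 0 R) :
    ∫ y, ((u y) ^ 2 + ((dd 0 u y) ^ 2 + (dd 1 u y) ^ 2 + (dd 2 u y) ^ 2)) ≤
      ((R ^ 2 + 9 / k ^ 2) + (k ^ 2 / 4 + 1) * ((2 / k ^ 2) * (R ^ 2 + 10 / k ^ 2))) *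
      ∫ y, (dd 0 (dd 0 u) y + dd 1 (dd 1 u) y + dd 2 (dd 2 u) y + k ^ 2 * u y) ^ 2 := by
  have c0 := hu.cont
  have c1 := fun j => (hu.dd j).cont
  have c2 := fun i j => ((hu.dd j).dd i).cont
  have z0 : ∀ y, y ∉ tsupport u → u y = 0 := fun y hy => image_eq_zero_of_notMem_tsupport hy
  have z1 : ∀ y, y ∉ tsupport u → ∀ j, dd j u y = 0 := fun y hy j => dd_zero hy j
  have z2 : ∀ y, y ∉ tsupport u → ∀ i j, dd i (dd j u) y = 0 := fun y hy i j =>
    dd_zero (fun h => hy (tsupport_dd j h)) i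
  set L : E → ℝ := fun y => dd 0 (dd 0 u) y + dd 1 (dd 1 u) y + dd 2 (dd 2 u) y + k ^ 2 * u y with hL
  set a : E → ℝ := fun y => (dd 0 u y) ^ 2 + (dd 1 u y) ^ 2 + (dd 2 u y) ^ 2 with ha
  set S : E → ℝ := fun y => y 0 * dd 0 u y + y 1 * dd 1 u y + y 2 * dd 2 u y with hS
  have cL : Continuous L := by
    have := c2 0 0
    have := c2 1 1
    have := c2 2 2
    fun_prop
  have ca : Continuous a := by
    have := c1 0
    have := c1 1
    have := c1 2
    fun_prop
  have cS : Continuous S := by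
    have := c1 0
    have := c1 1
    have := c1 2
    fun_prop
  have zL : ∀ y, y ∉ tsupport u → L y = 0 := fun y hy => by simp [hL, z0 y hy, z2 y hy]
  have za : ∀ y, y ∉ tsupport u → a y = 0 := fun y hy => by simp [ha, z1 y hy]
  have zS : ∀ y, y ∉ tsupport u → S y = 0 := fun y hy => by simp [hS, z1 y hy]
  have ia : Integrable a := integ hu ca za
  have ib : Integrable fun y => (u y) ^ 2 := integ hu (by fun_prop) fun y hy => by simp [z0 y hy]
  have il : Integrable fun y => (L y) ^ 2 := integ hu (by fun_prop) fun y hy => by simp [zL y hy]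
  have iLS : Integrable fun y => L y * S y := integ hu (by fun_prop) fun y hy => by simp [zL y hy]
  have iLu : Integrable fun y => L y * u y := integ hu (by fun_prop) fun y hy => by simp [zL y hy]
  -- first identity
  have I1 : ∫ y, (2 * (L y * S y) + 3 * (L y * u y) + 2 * a y) = 0 := by
    let W : Fin 3 → E → ℝ := fun j y => 2 * (dd j u y * S y) - y j * a y + k ^ 2 * (y j * (u y * u y)) +
      3 * (dd j u y * u y)
    have hW : ∀ j, SC (W j) := by
      intro j
      have s0 := hu.smooth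
      have s1 := fun j => (hu.dd j).smooth
      have sj := s1 j
      have s10 := s1 0
      have s11 := s1 1
      have s12 := s1 2
      refine ⟨by fun_prop, ?_⟩
      exact HasCompactSupport.intro hu.cpt fun y hy => by
        simp [W, z0 y hy, z1 y hy, za y hy]
    have hd : ∀ y, dd 0 (W 0) y + dd 1 (W 1) y + dd 2 (W 2) y =
        2 * (L y * S y) + 3 * (L y * u y) + 2 * a y := by
      intro y
      have e : ∀ j, dd j (W j) y =
          2 * (dd j (dd j u) y * S y + dd j u y *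
            (((if (0 : Fin 3) = j then 1 else 0) * dd 0 u y + y 0 * dd j (dd 0 u) y) +
             ((if (1 : Fin 3) = j then 1 else 0) * dd 1 u y + y 1 * dd j (dd 1 u) y) +
             ((if (2 : Fin 3) = j then 1 else 0) * dd 2 u y + y 2 * dd j (dd 2 u) y))) -
          ((if j = j then 1 else 0) * a y + y j *
            ((dd j (dd 0 u) y * dd 0 u y + dd 0 u y * dd j (dd 0 u) y) +
             (dd j (dd 1 u) y * dd 1 u y + dd 1 u y * dd j (dd 1 u) y) +
             (dd j (dd 2 u) y * dd 2 u y + dd 2 u y * dd j (dd 2 u) y))) +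
          k ^ 2 * ((if j = j then 1 else 0) * (u y * u y) + y j *
            (dd j u y * u y + u y * dd j u y)) +
          3 * (dd j (dd j u) y * u y + dd j u y * dd j u y) := by
        intro j
        apply HD.eq _ (hW j).diff
        have h0 := HD.of (j := j) (y := y) hu.diff
        have h1 := fun i => HD.of (j := j) (y := y) (hu.dd i).diff
        have hc := fun i => HD.coord j i y
        have hSd : HD j S y _ := (((hc 0).mul (h1 0)).add ((hc 1).mul (h1 1))).add ((hc 2).mul (h1 2))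
        have had : HD j a y ((dd j (dd 0 u) y * dd 0 u y + dd 0 u y * dd j (dd 0 u) y) +
             (dd j (dd 1 u) y * dd 1 u y + dd 1 u y * dd j (dd 1 u) y) +
             (dd j (dd 2 u) y * dd 2 u y + dd 2 u y * dd j (dd 2 u) y)) := by
          have := (((h1 0).mul (h1 0)).add ((h1 1).mul (h1 1))).add ((h1 2).mul (h1 2))
          simpa only [ha, sq] using this
        exact (((((h1 j).mul hSd).cmul 2).sub ((hc j).mul had)).add
          (((hc j).mul (h0.mul h0)).cmul (k ^ 2))).add (((h1 j).mul h0).cmul 3)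
      rw [e 0, e 1, e 2]
      have s01 := dd_symm hu 0 1 y
      have s02 := dd_symm hu 0 2 y
      have s12 := dd_symm hu 1 2 y
      simp only [hL, ha, hS, if_true, show ((0 : Fin 3) = 1) = False by simp,
        show ((0 : Fin 3) = 2) = False by simp, show ((1 : Fin 3) = 0) = False by simp,
        show ((1 : Fin 3) = 2) = False by simp, show ((2 : Fin 3) = 0) = False by simp,
        show ((2 : Fin 3) = 1) = False by simp, if_false]
      rw [s01, s02, s12]
      ring
    have hWi : ∀ j, Integrable (dd j (W j)) := fun j =>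
      (((hW j).dd j).cont).integrable_of_hasCompactSupport ((hW j).dd j).cpt
    rw [show (fun y => 2 * (L y * S y) + 3 * (L y * u y) + 2 * a y) = fun y =>
      dd 0 (W 0) y + dd 1 (W 1) y + dd 2 (W 2) y from funext fun y => (hd y).symm]
    have h01 : Integrable (fun y => dd 0 (W 0) y + dd 1 (W 1) y) := (hWi 0).add (hWi 1)
    rw [integral_add h01 (hWi 2), integral_add (hWi 0) (hWi 1)]
    rw [int_dd ((hW 0).smooth.of_le (by simp)) (hW 0).cpt, int_dd ((hW 1).smooth.of_le (by simp)) (hW 1).cpt,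
      int_dd ((hW 2).smooth.of_le (by simp)) (hW 2).cpt]
    simp
  -- second identity
  have I2 : ∫ y, (L y * u y - k ^ 2 * (u y) ^ 2 + a y) = 0 := by
    let W : Fin 3 → E → ℝ := fun j y => dd j u y * u y
    have hW : ∀ j, SC (W j) := by
      intro j
      have s0 := hu.smooth
      have sj := (hu.dd j).smooth
      refine ⟨by fun_prop, ?_⟩
      exact HasCompactSupport.intro hu.cpt fun y hy => by simp [W, z0 y hy]
    have hd : ∀ y, dd 0 (W 0) y + dd 1 (W 1) y + dd 2 (W 2) y =
        L y * u y - k ^ 2 * (u y) ^ 2 + a y := by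
      intro y
      have e : ∀ j, dd j (W j) y = dd j (dd j u) y * u y + dd j u y * dd j u y := by
        intro j
        apply HD.eq _ (hW j).diff
        exact (HD.of (hu.dd j).diff).mul (HD.of hu.diff)
      rw [e 0, e 1, e 2]
      simp only [hL, ha]
      ring
    have hWi : ∀ j, Integrable (dd j (W j)) := fun j =>
      (((hW j).dd j).cont).integrable_of_hasCompactSupport ((hW j).dd j).cpt
    rw [show (fun y => L y * u y - k ^ 2 * (u y) ^ 2 + a y) = fun y =>
      dd 0 (W 0) y + dd 1 (W 1) y + dd 2 (W 2) y from funext fun y => (hd y).symm]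
    have h01 : Integrable (fun y => dd 0 (W 0) y + dd 1 (W 1) y) := (hWi 0).add (hWi 1)
    rw [integral_add h01 (hWi 2), integral_add (hWi 0) (hWi 1)]
    rw [int_dd ((hW 0).smooth.of_le (by simp)) (hW 0).cpt, int_dd ((hW 1).smooth.of_le (by simp)) (hW 1).cpt,
      int_dd ((hW 2).smooth.of_le (by simp)) (hW 2).cpt]
    simp
  have hS2 : ∀ y, (S y) ^ 2 ≤ R ^ 2 * a y := by
    intro y
    by_cases hy : y ∈ tsupport u
    · have hyR : ‖y‖ < R := by simpa using hs hy
      have hn : ‖y‖ ^ 2 = (y 0) ^ 2 + (y 1) ^ 2 + (y 2) ^ 2 := by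
        rw [EuclideanSpace.norm_sq_eq, Fin.sum_univ_three]
        simp
      have h1 : (S y) ^ 2 ≤ ‖y‖ ^ 2 * a y := by
        rw [hn]
        simp only [hS, ha]
        nlinarith [sq_nonneg (y 0 * dd 1 u y - y 1 * dd 0 u y), sq_nonneg (y 0 * dd 2 u y - y 2 * dd 0 u y),
          sq_nonneg (y 1 * dd 2 u y - y 2 * dd 1 u y)]
      have h2 : ‖y‖ ^ 2 ≤ R ^ 2 := pow_le_pow_left₀ (norm_nonneg _) hyR.le 2
      have h3 : 0 ≤ a y := by positivity
      exact h1.trans (mul_le_mul_of_nonneg_right h2 h3)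
    · rw [zS y hy, za y hy]
      simp
  set A := ∫ y, a y with hA
  set B := ∫ y, (u y) ^ 2 with hB
  set F := ∫ y, (L y) ^ 2 with hF
  have E1 : 2 * A ≤ A + (R ^ 2 + 9 / k ^ 2) * F + (k ^ 2 / 4) * B := by
    have h1 : ∫ y, (2 * (L y * S y) + 3 * (L y * u y) + 2 * a y) =
        (∫ y, (2 * (L y * S y) + 3 * (L y * u y))) + 2 * A := by
      have i12 : Integrable fun y => 2 * (L y * S y) + 3 * (L y * u y) :=
        (iLS.const_mul 2).add (iLu.const_mul 3)
      rw [integral_add i12 (ia.const_mul 2), integral_const_mul]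
    have h2 : ∫ y, -(2 * (L y * S y) + 3 * (L y * u y)) ≤
        ∫ y, (a y + (R ^ 2 + 9 / k ^ 2) * (L y) ^ 2 + (k ^ 2 / 4) * (u y) ^ 2) := by
      apply integral_mono ((iLS.const_mul 2).add (iLu.const_mul 3)).neg
        ((ia.add (il.const_mul _)).add (ib.const_mul _))
      intro y
      have h3 := hS2 y
      have h4 : -(2 * (L y * S y)) ≤ R ^ 2 * (L y) ^ 2 + (S y) ^ 2 / R ^ 2 := by
        have : 0 ≤ (R * L y + S y / R) ^ 2 := sq_nonneg _
        have h5 : (R * L y + S y / R) ^ 2 = R ^ 2 * (L y) ^ 2 + (S y) ^ 2 / R ^ 2 + 2 * (L y * S y) := by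
          field_simp
          ring
        linarith
      have h5 : (S y) ^ 2 / R ^ 2 ≤ a y := by
        rw [div_le_iff₀ (by positivity)]
        linarith
      have h6 : -(3 * (L y * u y)) ≤ (k ^ 2 / 4) * (u y) ^ 2 + 9 / k ^ 2 * (L y) ^ 2 := by
        have : 0 ≤ (k / 2 * u y + 3 / k * L y) ^ 2 := sq_nonneg _
        have h5 : (k / 2 * u y + 3 / k * L y) ^ 2 =
            (k ^ 2 / 4) * (u y) ^ 2 + 9 / k ^ 2 * (L y) ^ 2 + 3 * (L y * u y) := by
          field_simp
          ring
        linarith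
      show -(2 * (L y * S y) + 3 * (L y * u y)) ≤ a y + (R ^ 2 + 9 / k ^ 2) * (L y) ^ 2 +
        (k ^ 2 / 4) * (u y) ^ 2
      linarith
    have i13 : Integrable fun y => a y + (R ^ 2 + 9 / k ^ 2) * (L y) ^ 2 := ia.add (il.const_mul _)
    rw [integral_neg, integral_add i13 (ib.const_mul _),
      integral_add ia (il.const_mul _), integral_const_mul, integral_const_mul] at h2
    linarith
  have E2 : k ^ 2 * B ≤ A + (k ^ 2 / 4) * B + 1 / k ^ 2 * F := by
    have h1 : ∫ y, (L y * u y - k ^ 2 * (u y) ^ 2 + a y) = (∫ y, L y * u y) - k ^ 2 * B + A := by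
      have i14 : Integrable fun y => L y * u y - k ^ 2 * (u y) ^ 2 := iLu.sub (ib.const_mul _)
      rw [integral_add i14 ia, integral_sub iLu (ib.const_mul _), integral_const_mul]
    have h2 : ∫ y, L y * u y ≤ ∫ y, ((k ^ 2 / 4) * (u y) ^ 2 + 1 / k ^ 2 * (L y) ^ 2) := by
      apply integral_mono iLu ((ib.const_mul _).add (il.const_mul _))
      intro y
      have : 0 ≤ (k / 2 * u y - 1 / k * L y) ^ 2 := sq_nonneg _
      have h5 : (k / 2 * u y - 1 / k * L y) ^ 2 =
          (k ^ 2 / 4) * (u y) ^ 2 + 1 / k ^ 2 * (L y) ^ 2 - L y * u y := by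
        field_simp
        ring
      show L y * u y ≤ (k ^ 2 / 4) * (u y) ^ 2 + 1 / k ^ 2 * (L y) ^ 2
      linarith
    rw [integral_add (ib.const_mul _) (il.const_mul _), integral_const_mul, integral_const_mul] at h2
    linarith
  have hF0 : 0 ≤ F := integral_nonneg fun y => sq_nonneg _
  have hk2 : 0 < k ^ 2 := by positivity
  have E3 : B ≤ (2 / k ^ 2) * (R ^ 2 + 10 / k ^ 2) * F := by
    have h1 : k ^ 2 / 2 * B ≤ (R ^ 2 + 10 / k ^ 2) * F := by
      have : (R ^ 2 + 10 / k ^ 2) * F = (R ^ 2 + 9 / k ^ 2) * F + 1 / k ^ 2 * F := by ring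
      linarith
    have h2 := mul_le_mul_of_nonneg_left h1 (show 0 ≤ 2 / k ^ 2 by positivity)
    have h3 : 2 / k ^ 2 * (k ^ 2 / 2 * B) = B := by field_simp
    linarith
  have h7 : ∫ y, ((u y) ^ 2 + ((dd 0 u y) ^ 2 + (dd 1 u y) ^ 2 + (dd 2 u y) ^ 2)) = B + A :=
    integral_add ib ia
  rw [h7]
  have E4 : A ≤ (R ^ 2 + 9 / k ^ 2) * F + (k ^ 2 / 4) * B := by linarith
  have E5 := mul_le_mul_of_nonneg_left E3 (show 0 ≤ k ^ 2 / 4 + 1 by positivity)
  calc B + A ≤ (R ^ 2 + 9 / k ^ 2) * F + (k ^ 2 / 4 + 1) * B := by linarith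
    _ ≤ (R ^ 2 + 9 / k ^ 2) * F + (k ^ 2 / 4 + 1) * ((2 / k ^ 2) * (R ^ 2 + 10 / k ^ 2) * F) := by
        linarith
    _ = _ := by ring

/-- real and imaginary parts -/
theorem pd_re {f : E → ℂ} (hf : Differentiable ℝ f) (j : Fin 3) (y : E) :
    (pd j f y).re = dd j (fun z => (f z).re) y := by
  have h : HasFDerivAt (fun z => (f z).re) (Complex.reCLM.comp (fderiv ℝ f y)) y :=
    Complex.reCLM.hasFDerivAt.comp y (hf y).hasFDerivAt
  rw [dd, h.fderiv]
  rfl

theorem pd_im {f : E → ℂ} (hf : Differentiable ℝ f) (j : Fin 3) (y : E) :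
    (pd j f y).im = dd j (fun z => (f z).im) y := by
  have h : HasFDerivAt (fun z => (f z).im) (Complex.imCLM.comp (fderiv ℝ f y)) y :=
    Complex.imCLM.hasFDerivAt.comp y (hf y).hasFDerivAt
  rw [dd, h.fderiv]
  rfl

theorem t_APR : S_APR := by
  intro k R hk hR
  refine ⟨(R ^ 2 + 9 / k ^ 2) + (k ^ 2 / 4 + 1) * ((2 / k ^ 2) * (R ^ 2 + 10 / k ^ 2)), fun f hf => ?_⟩
  set C := (R ^ 2 + 9 / k ^ 2) + (k ^ 2 / 4 + 1) * ((2 / k ^ 2) * (R ^ 2 + 10 / k ^ 2)) with hC
  let u : E → ℝ := fun y => (f y).re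
  let v : E → ℝ := fun y => (f y).im
  have hfd : Differentiable ℝ f := hf.smooth.differentiable (by simp)
  have hpd : ∀ j, Differentiable ℝ (pd j f) := by
    intro j
    have : ContDiff ℝ ∞ (pd j f) :=
      (hf.smooth.fderiv_right (m := ∞) (by simp)).clm_apply contDiff_const
    exact this.differentiable (by simp)
  have hu : SC u := ⟨Complex.reCLM.contDiff.comp hf.smooth,
    hf.cpt.comp_left (g := Complex.re) rfl⟩
  have hv : SC v := ⟨Complex.imCLM.contDiff.comp hf.smooth,
    hf.cpt.comp_left (g := Complex.im) rfl⟩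
  have hsu : tsupport u ⊆ Metric.ball 0 R := by
    refine Subset.trans (closure_mono ?_) hf.supp
    intro y hy h0
    exact hy (by simp [u, h0])
  have hsv : tsupport v ⊆ Metric.ball 0 R := by
    refine Subset.trans (closure_mono ?_) hf.supp
    intro y hy h0
    exact hy (by simp [v, h0])
  have h1 := real_apr k R hk hR u hu hsu
  have h2 := real_apr k R hk hR v hv hsv
  have e1 : ∀ j y, ‖pd j f y‖ ^ 2 = (dd j u y) ^ 2 + (dd j v y) ^ 2 := by
    intro j y
    rw [Complex.sq_norm, Complex.normSq_apply, pd_re hfd, pd_im hfd]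
    ring
  have e2 : ∀ y, ‖lap f y + ((k ^ 2 : ℝ) : ℂ) * f y‖ ^ 2 =
      (dd 0 (dd 0 u) y + dd 1 (dd 1 u) y + dd 2 (dd 2 u) y + k ^ 2 * u y) ^ 2 +
      (dd 0 (dd 0 v) y + dd 1 (dd 1 v) y + dd 2 (dd 2 v) y + k ^ 2 * v y) ^ 2 := by
    intro y
    have h3 : ∀ j, (pd j (pd j f) y).re = dd j (dd j u) y := by
      intro j
      rw [pd_re (hpd j)]
      congr 1
      funext z
      exact pd_re hfd j z
    have h4 : ∀ j, (pd j (pd j f) y).im = dd j (dd j v) y := by
      intro j
      rw [pd_im (hpd j)]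
      congr 1
      funext z
      exact pd_im hfd j z
    rw [Complex.sq_norm, Complex.normSq_apply]
    simp only [lap, Fin.sum_univ_three, Complex.add_re, Complex.add_im, Complex.re_ofReal_mul,
      Complex.im_ofReal_mul, h3, h4]
    ring
  have e3 : ∀ y, ‖f y‖ ^ 2 + ‖gr f y‖ ^ 2 =
      ((u y) ^ 2 + ((dd 0 u y) ^ 2 + (dd 1 u y) ^ 2 + (dd 2 u y) ^ 2)) +
      ((v y) ^ 2 + ((dd 0 v y) ^ 2 + (dd 1 v y) ^ 2 + (dd 2 v y) ^ 2)) := by
    intro y
    have h5 : ‖gr f y‖ ^ 2 = ∑ j, ‖pd j f y‖ ^ 2 := by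
      rw [gr, EuclideanSpace.norm_sq_eq]
    rw [h5, Fin.sum_univ_three, e1, e1, e1, Complex.sq_norm, Complex.normSq_apply]
    show _ = ((f y).re ^ 2 + _) + ((f y).im ^ 2 + _)
    ring
  have i1 : ∀ w, SC w → Integrable fun y =>
      ((w y) ^ 2 + ((dd 0 w y) ^ 2 + (dd 1 w y) ^ 2 + (dd 2 w y) ^ 2)) := by
    intro w hw
    have c0 := hw.cont
    have c1 := (hw.dd 0).cont
    have c2 := (hw.dd 1).cont
    have c3 := (hw.dd 2).cont
    refine integ hw (by fun_prop) fun y hy => ?_
    simp [image_eq_zero_of_notMem_tsupport hy, dd_zero hy]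
  have i2 : ∀ w, SC w → Integrable fun y =>
      (dd 0 (dd 0 w) y + dd 1 (dd 1 w) y + dd 2 (dd 2 w) y + k ^ 2 * w y) ^ 2 := by
    intro w hw
    have c0 := hw.cont
    have c1 := ((hw.dd 0).dd 0).cont
    have c2 := ((hw.dd 1).dd 1).cont
    have c3 := ((hw.dd 2).dd 2).cont
    refine integ hw (by fun_prop) fun y hy => ?_
    simp [image_eq_zero_of_notMem_tsupport hy, dd_zero fun h => hy (tsupport_dd _ h)]
  have e4 : H1 univ f = (∫ y, ((u y) ^ 2 + ((dd 0 u y) ^ 2 + (dd 1 u y) ^ 2 + (dd 2 u y) ^ 2))) +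
      ∫ y, ((v y) ^ 2 + ((dd 0 v y) ^ 2 + (dd 1 v y) ^ 2 + (dd 2 v y) ^ 2)) := by
    rw [H1, Measure.restrict_univ, ← integral_add (i1 u hu) (i1 v hv)]
    exact integral_congr_ae (Eventually.of_forall e3)
  have e5 : ∫ y, ‖lap f y + ((k ^ 2 : ℝ) : ℂ) * f y‖ ^ 2 =
      (∫ y, (dd 0 (dd 0 u) y + dd 1 (dd 1 u) y + dd 2 (dd 2 u) y + k ^ 2 * u y) ^ 2) +
      ∫ y, (dd 0 (dd 0 v) y + dd 1 (dd 1 v) y + dd 2 (dd 2 v) y + k ^ 2 * v y) ^ 2 := by
    rw [← integral_add (i2 u hu) (i2 v hv)]
    exact integral_congr_ae (Eventually.of_forall e2)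
  rw [e4, e5, mul_add]
  exact add_le_add h1 h2

end

end Pool.Agent.E8helper91.PM
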